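import Mathlib
import Pool.Agent.Helper698.SF

open MvPolynomial RingTheory.Sequence

universe u

namespace Pool.Agent.Results.MP_b90300_al.PeriodicDepth

/-- The `n`-th symbolic power `R ∩ ⋂_{𝔭 ∈ Min(I)} I ^ n R_𝔭`. -/
noncomputable def symbolicPower {R : Type u} [CommRing R] (I : Ideal R) (n : ℕ) : Ideal R :=
  ⨅ (p : Ideal R) (hp : p ∈ I.minimalPrimes),
    haveI : p.IsPrime := hp.1.1
    ((I ^ n).map (algebraMap R (Localization.AtPrime p))).comap
      (algebraMap R (Localization.AtPrime p))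

/-- The depth of `R ⧸ J`, `R = K[X_1, …, X_r]`: the supremum of the lengths of the regular
sequences on `R ⧸ J` all of whose terms lie in `𝔪 = (X_1, …, X_r)`. -/
noncomputable def depthQuot {r : ℕ} {K : Type u} [Field K]
    (J : Ideal (MvPolynomial (Fin r) K)) : ℕ∞ :=
  ⨆ (rs : List (MvPolynomial (Fin r) K))
    (_ : (∀ x ∈ rs, x ∈ Ideal.span (Set.range (X : Fin r → MvPolynomial (Fin r) K))) ∧
      IsRegular (MvPolynomial (Fin r) K ⧸ J) rs), (rs.length : ℕ∞)

/-- Every asymptotically periodic positive numerical function is the depth function of the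
symbolic powers of a monomial ideal; the exponents of the generators do not depend on the
field. -/
theorem result (φ : ℕ → ℕ) (hpos : ∀ t, 1 ≤ t → 1 ≤ φ t)
    (hper : ∃ p t₀, 1 ≤ p ∧ 1 ≤ t₀ ∧ ∀ t, t₀ ≤ t → φ (t + p) = φ t) :
    ∃ (r : ℕ) (S : Set (Fin r →₀ ℕ)), ∀ (K : Type u) [Field K]
      (I : Ideal (MvPolynomial (Fin r) K)), I = Ideal.span ((fun α => monomial α (1 : K)) '' S) →
      I ≠ ⊥ ∧ I ≠ ⊤ ∧ ∀ t, 1 ≤ t → depthQuot (symbolicPower I t) = (φ t : ℕ∞) := by
  obtain ⟨r, S, h⟩ := Pool.Agent.Helper698.Symb.main.{u} φ hpos hper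
  refine ⟨r, S, fun K _ I hI => ?_⟩
  subst hI
  exact h K

end Pool.Agent.Results.MP_b90300_al.PeriodicDepth
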